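import Pool.Agent.H437Z.CT.Defs
import Pool.Agent.Helper578.JD.Core

/-!
Basic facts on the jump and on the set `zeroOmega`.
-/

namespace Pool.Agent.H437Z.CT

open Encodable
open Pool.Agent.Helper578.JD (Info W Red smn recursion W_re Red_iff reMono)
open Pool.Agent.Helper578.JD.Oracle Pool.Agent.Helper578.JD.RE
open Nat.Partrec (Code)

theorem chi_eq (A : Set ℕ) : chi A = Pool.Agent.Helper578.JD.Defs.chi A := by
  funext n
  unfold chi Pool.Agent.Helper578.JD.Defs.chi Pool.Agent.Helper578.JD.Defs.chiN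
  rfl

theorem red_iff_chi {A B : Set ℕ} : TuringReducible (chi B) (chi A) ↔ Red B A := by
  rw [chi_eq, chi_eq]; rfl

theorem mem_jump {A : Set ℕ} {e : ℕ} :
    e ∈ jump A ↔ ∃ c : Info, Ok A c ∧ W e (encode (e, c)) := by
  constructor
  · rintro ⟨u, v, h1, h2, h3⟩
    exact ⟨(u, v), ⟨h1, h2⟩, h3⟩
  · rintro ⟨⟨u, v⟩, ⟨h1, h2⟩, h3⟩
    exact ⟨u, v, h1, h2, h3⟩

/-- Specialising a program to its first argument. -/
def cur (r a : ℕ) : ℕ := encode (Code.curry (Denumerable.ofNat Code r) a)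

theorem cur_comp : Computable fun p : ℕ × ℕ => cur p.1 p.2 := by
  unfold cur
  exact Computable.encode.comp ((Code.primrec₂_curry.to_comp).comp
    ((Computable.ofNat Code).comp Computable.fst) Computable.snd)

@[fun_prop] theorem ccur {α : Type*} [Primcodable α] {f g : α → ℕ} (hf : Computable f)
    (hg : Computable g) : Computable fun x => cur (f x) (g x) :=
  cur_comp.comp (hf.pair hg)

theorem W_cur (r a b : ℕ) : W (cur r a) b ↔ W r (Nat.pair a b) := by
  unfold W cur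
  rw [Denumerable.ofNat_encode, Code.eval_curry]

/-- Recursion through the jump: a program `r` such that `cur r (encode a)` lies in the jump of `A`
exactly if `P r a c` holds for some information `c` which is correct for `A`. -/
theorem jump_recursion {α : Type*} [Primcodable α] {P : ℕ → α → Info → Prop}
    (hP : REPred fun x : ℕ × α × Info => P x.1 x.2.1 x.2.2) :
    ∃ r : ℕ, ∀ (A : Set ℕ) (a : α),
      cur r (encode a) ∈ jump A ↔ ∃ c : Info, Ok A c ∧ P r a c := by
  have h1 : REPred fun x : ℕ × (α × (ℕ × Info)) => P x.1 x.2.1 x.2.2.2 :=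
    comp hP (f := fun x : ℕ × (α × (ℕ × Info)) => (x.1, x.2.1, x.2.2.2)) (by fun_prop)
  obtain ⟨r, hr⟩ := recursion (β := α × (ℕ × Info)) (P := fun r x => P r x.1 x.2.2) h1
  refine ⟨r, fun A a => ?_⟩
  rw [mem_jump]
  refine exists_congr fun c => and_congr_right fun _ => ?_
  rw [W_cur]
  exact hr (a, (cur r (encode a), c))

theorem mem_zeroOmega {n x : ℕ} : Nat.pair n x ∈ zeroOmega ↔ x ∈ jump^[n] ∅ := by
  unfold zeroOmega
  simp only [Set.mem_ofPred_eq, Nat.unpair_pair]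

/-- The complement of a c.e. predicate is c.e. in `zeroOmega`. -/
theorem co_re_in {α : Type*} [Primcodable α] {p : α → Prop} (hp : REPred p) :
    REIn zeroOmega fun a => ¬ p a := by
  have h1 : REPred fun x : ℕ × α × Info => p x.2.1 := comp hp (by fun_prop)
  obtain ⟨r, hr⟩ := jump_recursion (P := fun _ a _ => p a) h1
  refine (REIn.not_mem (f := fun a : α => Nat.pair 1 (cur r (encode a))) (by fun_prop)).of_eq
    fun a => ?_
  rw [mem_zeroOmega]
  simp only [Function.iterate_one]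
  rw [hr]
  refine not_congr ⟨fun ⟨_, _, h⟩ => h, fun h => ⟨([], []), ⟨?_, ?_⟩, h⟩⟩ <;> simp

theorem ok_reIn {α : Type*} [Primcodable α] {Z : Set ℕ} {f : α → Info} (hf : Computable f) :
    REIn Z fun a => Ok Z (f a) := by
  refine REIn.and ?_ ?_
  · exact REIn.all_mem (S := fun (_ : α) x => x ∈ Z) (l := fun a => (f a).1)
      (REIn.mem Computable.snd) (by fun_prop)
  · exact REIn.all_mem (S := fun (_ : α) x => x ∉ Z) (l := fun a => (f a).2)
      (REIn.not_mem Computable.snd) (by fun_prop)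

theorem not_ok_reIn {α : Type*} [Primcodable α] {Z : Set ℕ} {f : α → Info} (hf : Computable f) :
    REIn Z fun a => ¬ Ok Z (f a) := by
  have h1 : REIn Z fun a => (∃ x, x ∈ (f a).1 ∧ x ∉ Z) ∨ (∃ x, x ∈ (f a).2 ∧ x ∈ Z) := by
    refine REIn.or (REIn.ex (S := fun a x => x ∈ (f a).1 ∧ x ∉ Z) ?_)
      (REIn.ex (S := fun a x => x ∈ (f a).2 ∧ x ∈ Z) ?_)
    · exact REIn.and (REIn.of_re (mem_list (by fun_prop) (by fun_prop)))
        (REIn.not_mem Computable.snd)
    · exact REIn.and (REIn.of_re (mem_list (by fun_prop) (by fun_prop)))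
        (REIn.mem Computable.snd)
  refine h1.of_eq fun a => ?_
  unfold Ok
  constructor
  · rintro (⟨x, h2, h3⟩ | ⟨x, h2, h3⟩) h
    · exact h3 (h.1 x h2)
    · exact h.2 x h2 h3
  · intro h
    by_contra hcon
    push Not at hcon
    exact h ⟨hcon.1, hcon.2⟩

/-- Uniformisation relative to an oracle. -/
theorem uniformizeIn {α β : Type} [Primcodable α] [Primcodable β] {Z : Set ℕ}
    {r : α → β → Prop} (hr : REIn Z fun x : α × β => r x.1 x.2) (ht : ∀ a, ∃ b, r a b) :
    ∃ f : α → β, (∀ a, r a (f a)) ∧ REIn Z fun x : α × β => f x.1 = x.2 := by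
  classical
  obtain ⟨R, hR, h⟩ := hr
  obtain ⟨q, hq, hRq⟩ := re_iff.1 hR
  let Q : α → ℕ → Prop := fun a n => ∃ w : β × Info × ℕ, decode n = some w ∧
    q ((a, w.1), w.2.1) w.2.2 = true ∧ Ok Z w.2.1
  have hq' : Computable fun x : ((α × β) × Info) × ℕ => q x.1 x.2 := hq
  have hex : ∀ a, ∃ n, Q a n := by
    intro a
    obtain ⟨b, hb⟩ := ht a
    obtain ⟨c, hc1, hc2⟩ := (h (a, b)).1 hb
    obtain ⟨t, ht⟩ := (hRq ((a, b), c)).1 hc1
    exact ⟨encode (b, c, t), (b, c, t), encodek _, ht, hc2⟩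
  have hQ : ∀ a, ∃ w : β × Info × ℕ, decode (Nat.find (hex a)) = some w ∧
      q ((a, w.1), w.2.1) w.2.2 = true ∧ Ok Z w.2.1 := fun a => Nat.find_spec (hex a)
  choose w hw1 hw2 hw3 using hQ
  refine ⟨fun a => (w a).1, fun a => (h (a, (w a).1)).2 ⟨_, (hRq _).2 ⟨_, hw2 a⟩, hw3 a⟩, ?_⟩
  have hnQ : REIn Z fun x : α × ℕ => ¬ Q x.1 x.2 := by
    have h2 : REIn Z fun x : α × ℕ => decode (α := β × Info × ℕ) x.2 = none ∨
        ∃ w : β × Info × ℕ, decode x.2 = some w ∧
          (q ((x.1, w.1), w.2.1) w.2.2 = false ∨ ¬ Ok Z w.2.1) := by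
      refine REIn.or (REIn.of_re (eq (by fun_prop) (by fun_prop)))
        (REIn.ex (S := fun (x : α × ℕ) (w : β × Info × ℕ) => decode x.2 = some w ∧
          (q ((x.1, w.1), w.2.1) w.2.2 = false ∨ ¬ Ok Z w.2.1)) ?_)
      refine REIn.and (REIn.of_re (eq (by fun_prop) (by fun_prop)))
        (REIn.or (REIn.of_re (eq ?_ (by fun_prop))) (not_ok_reIn (by fun_prop)))
      exact hq'.comp (g := fun y : (α × ℕ) × (β × Info × ℕ) => (((y.1.1, y.2.1), y.2.2.1), y.2.2.2))
        (by fun_prop)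
    refine h2.of_eq fun x => ?_
    constructor
    · rintro (h3 | ⟨w, h3, h4⟩) ⟨w', h5, h6, h7⟩
      · rw [h3] at h5; cases h5
      · rw [h3] at h5
        cases h5
        rcases h4 with h4 | h4
        · rw [h4] at h6; cases h6
        · exact h4 h7
    · intro h3
      rcases hd : decode (α := β × Info × ℕ) x.2 with _ | w
      · exact Or.inl rfl
      · refine Or.inr ⟨w, rfl, ?_⟩
        by_contra hcon
        push Not at hcon
        exact h3 ⟨w, hd, by simpa using hcon.1, hcon.2⟩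
  have h3 : REIn Z fun x : α × β => ∃ y : ℕ × Info × ℕ,
      decode y.1 = some (x.2, y.2.1, y.2.2) ∧ q ((x.1, x.2), y.2.1) y.2.2 = true ∧ Ok Z y.2.1 ∧
        ∀ m < y.1, ¬ Q x.1 m := by
    refine REIn.ex (S := fun (x : α × β) (y : ℕ × Info × ℕ) =>
      decode y.1 = some (x.2, y.2.1, y.2.2) ∧ q ((x.1, x.2), y.2.1) y.2.2 = true ∧ Ok Z y.2.1 ∧
        ∀ m < y.1, ¬ Q x.1 m) ?_
    refine REIn.and (REIn.of_re (eq (by fun_prop) (by fun_prop)))
      (REIn.and (REIn.of_re (eq ?_ (by fun_prop))) (REIn.and (ok_reIn (by fun_prop)) ?_))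
    · exact hq'.comp (g := fun y : (α × β) × (ℕ × Info × ℕ) => (((y.1.1, y.1.2), y.2.2.1), y.2.2.2))
        (by fun_prop)
    · refine REIn.all_lt (S := fun (z : (α × β) × (ℕ × Info × ℕ)) m => ¬ Q z.1.1 m) ?_
        (by fun_prop)
      exact hnQ.comp (f := fun z : ((α × β) × (ℕ × Info × ℕ)) × ℕ => (z.1.1.1, z.2)) (by fun_prop)
  refine h3.of_eq fun x => ?_
  obtain ⟨a, b⟩ := x
  constructor
  · rintro ⟨⟨n, c, t⟩, h4, h5, h6, h7⟩
    have h8 : Nat.find (hex a) = n := by
      rw [Nat.find_eq_iff]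
      exact ⟨⟨(b, c, t), h4, h5, h6⟩, h7⟩
    have h9 := hw1 a
    rw [h8] at h9
    simp only at h4
    rw [h4] at h9
    have h10 := Option.some.inj h9
    show (w a).1 = b
    rw [← h10]
  · intro h4
    simp only at h4
    subst h4
    exact ⟨(Nat.find (hex a), (w a).2.1, (w a).2.2), hw1 a, hw2 a, hw3 a,
      fun m hm => Nat.find_min (hex a) hm⟩

/-- Effective dependent choice relative to an oracle. -/
theorem depChoiceIn {β : Type} [Primcodable β] {Z : Set ℕ} {r : β → ℕ → β → Prop}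
    (hr : REIn Z fun x : (β × ℕ) × β => r x.1.1 x.1.2 x.2) (ht : ∀ b s, ∃ b', r b s b') (b0 : β) :
    ∃ g : ℕ → β, g 0 = b0 ∧ (∀ s, r (g s) s (g (s + 1))) ∧
      REIn Z fun x : ℕ × β => g x.1 = x.2 := by
  obtain ⟨f, hf1, hf2⟩ := uniformizeIn (r := fun (x : β × ℕ) b' => r x.1 x.2 b') hr
    (fun x => ht x.1 x.2)
  let g : ℕ → β := fun s => Nat.rec b0 (fun s b => f (b, s)) s
  have g0 : g 0 = b0 := rfl
  have gs : ∀ s, g (s + 1) = f (g s, s) := fun s => rfl
  refine ⟨g, g0, fun s => by rw [gs]; exact hf1 (g s, s), ?_⟩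
  have h1 : REIn Z fun x : ℕ × β => ∃ l : List β, l[0]? = some b0 ∧
      (∀ t < x.1, ∃ u : β × β, l[t]? = some u.1 ∧ l[t + 1]? = some u.2 ∧ f (u.1, t) = u.2) ∧
      l[x.1]? = some x.2 := by
    refine REIn.ex (S := fun (x : ℕ × β) (l : List β) => l[0]? = some b0 ∧
      (∀ t < x.1, ∃ u : β × β, l[t]? = some u.1 ∧ l[t + 1]? = some u.2 ∧ f (u.1, t) = u.2) ∧
      l[x.1]? = some x.2) ?_
    refine REIn.and (REIn.of_re (eq (by fun_prop) (by fun_prop)))
      (REIn.and ?_ (REIn.of_re (eq (by fun_prop) (by fun_prop))))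
    refine REIn.all_lt (S := fun (z : (ℕ × β) × List β) t =>
      ∃ u : β × β, z.2[t]? = some u.1 ∧ z.2[t + 1]? = some u.2 ∧ f (u.1, t) = u.2) ?_
      (by fun_prop)
    refine REIn.ex (S := fun (z : ((ℕ × β) × List β) × ℕ) (u : β × β) =>
      z.1.2[z.2]? = some u.1 ∧ z.1.2[z.2 + 1]? = some u.2 ∧ f (u.1, z.2) = u.2) ?_
    refine REIn.and (REIn.of_re (eq (by fun_prop) (by fun_prop)))
      (REIn.and (REIn.of_re (eq (by fun_prop) (by fun_prop))) ?_)
    exact hf2.comp (f := fun z : (((ℕ × β) × List β) × ℕ) × (β × β) => ((z.2.1, z.1.2), z.2.2))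
      (by fun_prop)
  refine h1.of_eq fun x => ?_
  obtain ⟨s, b⟩ := x
  constructor
  · rintro ⟨l, h2, h3, h4⟩
    have h5 : ∀ t ≤ s, l[t]? = some (g t) := by
      intro t
      induction t with
      | zero => intro _; exact h2
      | succ t ih =>
        intro ht
        obtain ⟨u, hu1, hu2, hu3⟩ := h3 t (by omega)
        rw [ih (by omega)] at hu1
        rw [hu2, gs, Option.some.inj hu1, hu3]
    have h6 := h5 s le_rfl
    simp only at h4
    rw [h4] at h6
    exact (Option.some.inj h6).symm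
  · intro h2
    simp only at h2
    subst h2
    have h3 : ∀ t ≤ s, ((List.range (s + 1)).map g)[t]? = some (g t) := by
      intro t ht
      rw [List.getElem?_map, List.getElem?_range (by omega)]
      rfl
    exact ⟨(List.range (s + 1)).map g, h3 0 (by omega),
      fun t ht => ⟨(g t, g (t + 1)), h3 t (by omega), h3 (t + 1) (by omega), (gs t).symm⟩,
      h3 s le_rfl⟩

end Pool.Agent.H437Z.CT
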