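import Mathlib

/-!
Definitions for the question on Turing degrees of theories with computable models.
-/

namespace Pool.Agent.H437Z.CT

open FirstOrder FirstOrder.Language Encodable

open Classical in
/-- The characteristic function of a set of natural numbers, as a (total) oracle. -/
noncomputable def chi (A : Set ℕ) : ℕ →. ℕ := fun n => Part.some (if n ∈ A then 1 else 0)

/-- The `e`-th set computably enumerable in `A` (Rogers' definition): all `x` such that the `e`-th
partial recursive function halts on `(x, u, v)` for some finite list `u` of elements of `A` and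
some finite list `v` of non-elements of `A`. -/
def relW (A : Set ℕ) (e : ℕ) : Set ℕ :=
  {x | ∃ u v : List ℕ, (∀ y ∈ u, y ∈ A) ∧ (∀ y ∈ v, y ∉ A) ∧
    ((Denumerable.ofNat Nat.Partrec.Code e).eval (encode (x, u, v))).Dom}

/-- The Turing jump. -/
def jump (A : Set ℕ) : Set ℕ := {e | e ∈ relW A e}

/-- The set of all pairs `(n, x)` with `x` in the `n`-th jump of the empty set. -/
def zeroOmega : Set ℕ := {z | z.unpair.2 ∈ jump^[z.unpair.1] ∅}

/-- A signature whose symbols are numbered: `F n i` says that there is an `n`-ary function symbol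
with number `i`, and `R n i` says that there is an `n`-ary relation symbol with number `i`. -/
structure Signature where
  F : ℕ → ℕ → Prop
  R : ℕ → ℕ → Prop

/-- The first-order language of a signature. -/
def Signature.lang (σ : Signature) : Language where
  Functions n := {i : ℕ // σ.F n i}
  Relations n := {i : ℕ // σ.R n i}

/-- The symbols and their arities are given effectively. -/
def Signature.IsComputable (σ : Signature) : Prop :=
  ComputablePred (fun p : ℕ × ℕ => σ.F p.1 p.2) ∧ ComputablePred (fun p : ℕ × ℕ => σ.R p.1 p.2)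

/-- Goedel number of a term in the variables `0, ..., k - 1`. -/
def gnTerm {σ : Signature} {k : ℕ} : σ.lang.Term (Empty ⊕ Fin k) → ℕ
  | .var (.inl e) => e.elim
  | .var (.inr i) => Nat.pair 0 i
  | .func f ts => Nat.pair 1 (Nat.pair f.1 (encode (List.ofFn fun j => gnTerm (ts j))))

/-- Goedel number of a formula in the (de Bruijn) variables `0, ..., k - 1`. -/
def gn {σ : Signature} : {k : ℕ} → σ.lang.BoundedFormula Empty k → ℕ
  | _, .falsum => Nat.pair 0 0
  | _, .equal s t => Nat.pair 1 (Nat.pair (gnTerm s) (gnTerm t))
  | _, .rel r ts => Nat.pair 2 (Nat.pair r.1 (encode (List.ofFn fun j => gnTerm (ts j))))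
  | _, .imp φ ψ => Nat.pair 3 (Nat.pair (gn φ) (gn ψ))
  | _, .all φ => Nat.pair 4 (gn φ)

/-- The set of Goedel numbers of the sentences of the (deductively closed) theory axiomatised
by `T`. -/
def codes {σ : Signature} (T : σ.lang.Theory) : Set ℕ :=
  {x | ∃ φ : σ.lang.Sentence, T ⊨ᵇ φ ∧ gn φ = x}

/-- A structure with universe `U ⊆ ℕ` is computable: `U` is a computable set, and so are the set of
all true statements `f (a₁, ..., aₙ) = b` and the set of all true statements `r (a₁, ..., aₙ)`,
where `f`, `r` are symbols and `a₁, ..., aₙ, b` are elements of `U`. -/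
def IsComputableStructure (σ : Signature) (U : Set ℕ) [σ.lang.Structure U] : Prop :=
  ComputablePred (· ∈ U) ∧
  ComputablePred (fun p : ℕ × List ℕ × ℕ => ∃ (n : ℕ) (f : σ.lang.Functions n) (a : Fin n → U),
    f.1 = p.1 ∧ (List.ofFn fun j => (a j : ℕ)) = p.2.1 ∧ (Structure.funMap f a : U) = p.2.2) ∧
  ComputablePred (fun p : ℕ × List ℕ => ∃ (n : ℕ) (r : σ.lang.Relations n) (a : Fin n → U),
    r.1 = p.1 ∧ (List.ofFn fun j => (a j : ℕ)) = p.2 ∧ Structure.RelMap r a)

/-- `T` has a computable model. -/
def HasComputableModel {σ : Signature} (T : σ.lang.Theory) : Prop :=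
  ∃ (U : Set ℕ) (_ : Nonempty U) (_ : σ.lang.Structure U), IsComputableStructure σ U ∧ U ⊨ T

end Pool.Agent.H437Z.CT
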