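import Pool.Agent.H437Z.CT.Basic

/-!
A set below `Z` which is not Turing equivalent to any member of a uniformly `Z`-computable family.
-/

namespace Pool.Agent.H437Z.CT

open Encodable
open Pool.Agent.Helper578.JD (Info W Red smn recursion W_re Red_iff reMono Cons app okCons okApp)
open Pool.Agent.Helper578.JD.Oracle Pool.Agent.Helper578.JD.RE
open Nat.Partrec (Code)

/-- `q` contains all the information of `p`. -/
def Ext (p q : Info) : Prop := (∀ x ∈ p.1, x ∈ q.1) ∧ ∀ x ∈ p.2, x ∈ q.2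

theorem Ext.refl (p : Info) : Ext p p := ⟨fun _ h => h, fun _ h => h⟩

theorem Ext.trans {p q r : Info} (h1 : Ext p q) (h2 : Ext q r) : Ext p r :=
  ⟨fun x h => h2.1 x (h1.1 x h), fun x h => h2.2 x (h1.2 x h)⟩

theorem ext_app_left (p q : Info) : Ext p (app p q) :=
  ⟨fun _ h => List.mem_append_left _ h, fun _ h => List.mem_append_left _ h⟩

theorem ext_app_right (p q : Info) : Ext q (app p q) :=
  ⟨fun _ h => List.mem_append_right _ h, fun _ h => List.mem_append_right _ h⟩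

theorem ext_re {α : Type*} [Primcodable α] {f g : α → Info} (hf : Computable f)
    (hg : Computable g) : REPred fun a => Ext (f a) (g a) := by
  refine Pool.Agent.Helper578.JD.RE.and ?_ ?_
  · exact all_mem (p := fun a x => x ∈ (g a).1) (l := fun a => (f a).1)
      (mem_list (by fun_prop) (by fun_prop)) (by fun_prop)
  · exact all_mem (p := fun a x => x ∈ (g a).2) (l := fun a => (f a).2)
      (mem_list (by fun_prop) (by fun_prop)) (by fun_prop)

theorem cons_re {α : Type*} [Primcodable α] {f : α → Info} (hf : Computable f) :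
    REPred fun a => Cons (f a) :=
  all_mem (p := fun a x => x ∉ (f a).2) (l := fun a => (f a).1)
    (not_mem_list (by fun_prop) (by fun_prop)) (by fun_prop)

theorem not_cons_re {α : Type*} [Primcodable α] {f : α → Info} (hf : Computable f) :
    REPred fun a => ¬ Cons (f a) := by
  have h := ex_mem (p := fun a x => x ∈ (f a).2) (l := fun a => (f a).1)
    (mem_list (by fun_prop) (by fun_prop)) (by fun_prop)
  refine h.of_eq fun a => ?_
  unfold Cons
  push Not
  rfl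

@[fun_prop] theorem capp {α : Type*} [Primcodable α] {f g : α → Info} (hf : Computable f)
    (hg : Computable g) : Computable fun a => app (f a) (g a) := by
  unfold app
  fun_prop

theorem Wre {α : Type*} [Primcodable α] {f g : α → ℕ} (hf : Computable f) (hg : Computable g) :
    REPred fun a => W (f a) (g a) :=
  comp W_re (f := fun a => (f a, g a)) (hf.pair hg)

/-- The `i`-th reduction procedure splits above `p`. -/
def Split (i : ℕ) (p : Info) : Prop :=
  ∃ y : ℕ × Info × Info, W i (encode (y.1, true, y.2.1)) ∧ W i (encode (y.1, false, y.2.2)) ∧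
    Cons (app p y.2.1) ∧ Cons (app p y.2.2)

theorem split_re : REPred fun x : ℕ × Info => Split x.1 x.2 := by
  refine ex (p := fun (x : ℕ × Info) (y : ℕ × Info × Info) =>
    W x.1 (encode (y.1, true, y.2.1)) ∧ W x.1 (encode (y.1, false, y.2.2)) ∧
    Cons (app x.2 y.2.1) ∧ Cons (app x.2 y.2.2)) ?_
  refine Pool.Agent.Helper578.JD.RE.and (Wre (by fun_prop) (by fun_prop))
    (Pool.Agent.Helper578.JD.RE.and (Wre (by fun_prop) (by fun_prop))
      (Pool.Agent.Helper578.JD.RE.and (cons_re (by fun_prop)) (cons_re (by fun_prop))))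

/-- One step of the construction. -/
def Step (B : ℕ → Set ℕ) (p : Info) (s : ℕ) (q : Info) : Prop :=
  ¬ Cons p ∨ (Cons q ∧ Ext p q ∧ (s ∈ q.1 ∨ s ∈ q.2) ∧
    (∃ x, (W s x ∧ x ∈ q.2) ∨ (¬ W s x ∧ x ∈ q.1)) ∧
    ((∃ y : ℕ × Info, Ext y.2 q ∧
      ((W s.unpair.2 (encode (y.1, true, y.2)) ∧ y.1 ∉ B s.unpair.1) ∨
       (W s.unpair.2 (encode (y.1, false, y.2)) ∧ y.1 ∈ B s.unpair.1))) ∨
      ¬ Split s.unpair.2 p))

theorem step_total (B : ℕ → Set ℕ) (p : Info) (s : ℕ) : ∃ q, Step B p s q := by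
  classical
  by_cases hp : Cons p
  swap
  · exact ⟨p, Or.inl hp⟩
  have h1 : ∃ p1, Cons p1 ∧ Ext p p1 ∧ ((∃ y : ℕ × Info, Ext y.2 p1 ∧
      ((W s.unpair.2 (encode (y.1, true, y.2)) ∧ y.1 ∉ B s.unpair.1) ∨
       (W s.unpair.2 (encode (y.1, false, y.2)) ∧ y.1 ∈ B s.unpair.1))) ∨
      ¬ Split s.unpair.2 p) := by
    by_cases hs : Split s.unpair.2 p
    · obtain ⟨⟨x, c, c'⟩, h2, h3, h4, h5⟩ := hs
      by_cases hx : x ∈ B s.unpair.1
      · exact ⟨app p c', h5, ext_app_left _ _,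
          Or.inl ⟨(x, c'), ext_app_right _ _, Or.inr ⟨h3, hx⟩⟩⟩
      · exact ⟨app p c, h4, ext_app_left _ _,
          Or.inl ⟨(x, c), ext_app_right _ _, Or.inl ⟨h2, hx⟩⟩⟩
    · exact ⟨p, hp, Ext.refl p, Or.inr hs⟩
  obtain ⟨p1, h2, h3, h4⟩ := h1
  have h5 : ∃ p2, Cons p2 ∧ Ext p1 p2 ∧ (s ∈ p2.1 ∨ s ∈ p2.2) := by
    by_cases hs : s ∈ p1.1
    · exact ⟨p1, h2, Ext.refl _, Or.inl hs⟩
    · refine ⟨(p1.1, s :: p1.2), ?_, ⟨fun _ h => h, fun _ h => List.mem_cons_of_mem _ h⟩,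
        Or.inr List.mem_cons_self⟩
      intro x hx hx'
      rcases List.mem_cons.1 hx' with rfl | hx'
      · exact hs hx
      · exact h2 x hx hx'
  obtain ⟨p2, h6, h7, h8⟩ := h5
  obtain ⟨x, hx⟩ := Infinite.exists_notMem_finset (p2.1 ++ p2.2).toFinset
  simp only [List.mem_toFinset, List.mem_append, not_or] at hx
  have h9 : ∃ p3, Cons p3 ∧ Ext p2 p3 ∧ ((W s x ∧ x ∈ p3.2) ∨ (¬ W s x ∧ x ∈ p3.1)) := by
    by_cases hw : W s x
    · refine ⟨(p2.1, x :: p2.2), ?_, ⟨fun _ h => h, fun _ h => List.mem_cons_of_mem _ h⟩,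
        Or.inl ⟨hw, List.mem_cons_self⟩⟩
      intro y hy hy'
      rcases List.mem_cons.1 hy' with rfl | hy'
      · exact hx.1 hy
      · exact h6 y hy hy'
    · refine ⟨(x :: p2.1, p2.2), ?_, ⟨fun _ h => List.mem_cons_of_mem _ h, fun _ h => h⟩,
        Or.inr ⟨hw, List.mem_cons_self⟩⟩
      intro y hy hy'
      rcases List.mem_cons.1 hy with rfl | hy
      · exact hx.2 hy'
      · exact h6 y hy hy'
  obtain ⟨p3, h10, h11, h12⟩ := h9
  refine ⟨p3, Or.inr ⟨h10, h3.trans (h7.trans h11), ?_, ⟨x, h12⟩, ?_⟩⟩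
  · exact h8.imp (h11.1 s) (h11.2 s)
  · rcases h4 with ⟨y, hy1, hy2⟩ | h4
    · exact Or.inl ⟨y, hy1.trans (h7.trans h11), hy2⟩
    · exact Or.inr h4

theorem step_reIn {B : ℕ → Set ℕ}
    (hB1 : REIn zeroOmega fun x : ℕ × ℕ => x.2 ∈ B x.1)
    (hB0 : REIn zeroOmega fun x : ℕ × ℕ => x.2 ∉ B x.1) :
    REIn zeroOmega fun x : (Info × ℕ) × Info => Step B x.1.1 x.1.2 x.2 := by
  refine REIn.or (REIn.of_re (not_cons_re (by fun_prop))) ?_
  refine REIn.and (REIn.of_re (cons_re (by fun_prop)))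
    (REIn.and (REIn.of_re (ext_re (by fun_prop) (by fun_prop))) (REIn.and ?_ (REIn.and ?_ ?_)))
  · exact REIn.of_re (Pool.Agent.Helper578.JD.RE.or (mem_list (by fun_prop) (by fun_prop))
      (mem_list (by fun_prop) (by fun_prop)))
  · refine REIn.ex (S := fun (z : (Info × ℕ) × Info) (x : ℕ) =>
      (W z.1.2 x ∧ x ∈ z.2.2) ∨ (¬ W z.1.2 x ∧ x ∈ z.2.1)) ?_
    refine REIn.or (REIn.of_re (Pool.Agent.Helper578.JD.RE.and (Wre (by fun_prop) (by fun_prop))
      (mem_list (by fun_prop) (by fun_prop)))) (REIn.and ?_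
        (REIn.of_re (mem_list (by fun_prop) (by fun_prop))))
    exact co_re_in (Wre (by fun_prop) (by fun_prop))
  · refine REIn.or ?_ ?_
    · refine REIn.ex (S := fun (z : (Info × ℕ) × Info) (y : ℕ × Info) => Ext y.2 z.2 ∧
        ((W z.1.2.unpair.2 (encode (y.1, true, y.2)) ∧ y.1 ∉ B z.1.2.unpair.1) ∨
        (W z.1.2.unpair.2 (encode (y.1, false, y.2)) ∧ y.1 ∈ B z.1.2.unpair.1))) ?_
      refine REIn.and (REIn.of_re (ext_re (by fun_prop) (by fun_prop))) (REIn.or ?_ ?_)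
      · refine REIn.and (REIn.of_re (Wre (by fun_prop) (by fun_prop))) ?_
        exact hB0.comp (f := fun z : ((Info × ℕ) × Info) × (ℕ × Info) =>
          (z.1.1.2.unpair.1, z.2.1)) (by fun_prop)
      · refine REIn.and (REIn.of_re (Wre (by fun_prop) (by fun_prop))) ?_
        exact hB1.comp (f := fun z : ((Info × ℕ) × Info) × (ℕ × Info) =>
          (z.1.1.2.unpair.1, z.2.1)) (by fun_prop)
    · exact co_re_in (comp split_re (f := fun z : (Info × ℕ) × Info => (z.1.2.unpair.2, z.1.1))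
        (by fun_prop))

theorem re_of_reIn_of_re {α : Type*} [Primcodable α] {B : Set ℕ} {S : α → Prop}
    (hS : REIn B S) (h1 : REPred (· ∈ B)) (h0 : REPred (· ∉ B)) : REPred S := by
  obtain ⟨R, hR, h⟩ := hS
  have h2 : REPred fun a => ∃ c : Info, R a c ∧ Ok B c := by
    refine ex (p := fun a c => R a c ∧ Ok B c) (Pool.Agent.Helper578.JD.RE.and hR ?_)
    refine Pool.Agent.Helper578.JD.RE.and ?_ ?_
    · exact all_mem (p := fun (_ : α × Info) x => x ∈ B) (l := fun x => x.2.1)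
        (comp h1 Computable.snd) (by fun_prop)
    · exact all_mem (p := fun (_ : α × Info) x => x ∉ B) (l := fun x => x.2.2)
        (comp h0 Computable.snd) (by fun_prop)
  exact h2.of_eq fun a => (h a).symm

/-- The diagonal set. It is not c.e., and every member of the family which is computable from it
is computable. -/
theorem exists_diag {B : ℕ → Set ℕ}
    (hB1 : REIn zeroOmega fun x : ℕ × ℕ => x.2 ∈ B x.1)
    (hB0 : REIn zeroOmega fun x : ℕ × ℕ => x.2 ∉ B x.1) :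
    ∃ D : Set ℕ, Red D zeroOmega ∧ ¬ REPred (· ∈ D) ∧
      ∀ e, Red (B e) D → REPred (· ∈ B e) ∧ REPred (· ∉ B e) := by
  obtain ⟨g, g0, gs, hg⟩ := depChoiceIn (r := Step B) (step_reIn hB1 hB0) (step_total B) ([], [])
  have hcons : ∀ s, Cons (g s) := by
    intro s
    induction s with
    | zero => rw [g0]; intro x hx; simp at hx
    | succ s ih => exact ((gs s).resolve_left (not_not.2 ih)).1
  have hst := fun s => (gs s).resolve_left (not_not.2 (hcons s))
  have hmono : ∀ s t, s ≤ t → Ext (g s) (g t) := by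
    intro s t hst'
    induction t, hst' using Nat.le_induction with
    | base => exact Ext.refl _
    | succ t _ ih => exact ih.trans (hst t).2.1
  let D : Set ℕ := {x | ∃ s, x ∈ (g s).1}
  have hok : ∀ s, Ok D (g s) := by
    intro s
    refine ⟨fun x hx => ⟨s, hx⟩, ?_⟩
    rintro x hx ⟨t, ht⟩
    exact hcons (max s t) x ((hmono t _ (le_max_right _ _)).1 x ht)
      ((hmono s _ (le_max_left _ _)).2 x hx)
  have hneg : ∀ x, x ∉ D ↔ ∃ s, x ∈ (g s).2 := by
    intro x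
    constructor
    · intro hx
      rcases (hst x).2.2.1 with h | h
      · exact absurd ⟨_, h⟩ hx
      · exact ⟨_, h⟩
    · rintro ⟨s, hs⟩
      exact (hok s).2 x hs
  refine ⟨D, ?_, ?_, ?_⟩
  · rw [Red_iff]
    constructor
    · have h1 : REIn zeroOmega fun x : ℕ => ∃ y : ℕ × Info, g y.1 = y.2 ∧ x ∈ y.2.1 := by
        refine REIn.ex (S := fun (x : ℕ) (y : ℕ × Info) => g y.1 = y.2 ∧ x ∈ y.2.1) ?_
        exact REIn.and (hg.comp Computable.snd) (REIn.of_re (mem_list (by fun_prop) (by fun_prop)))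
      refine h1.of_eq fun x => ?_
      constructor
      · rintro ⟨y, h2, h3⟩
        exact ⟨y.1, by rw [h2]; exact h3⟩
      · rintro ⟨s, hs⟩
        exact ⟨(s, g s), rfl, hs⟩
    · have h1 : REIn zeroOmega fun x : ℕ => ∃ y : ℕ × Info, g y.1 = y.2 ∧ x ∈ y.2.2 := by
        refine REIn.ex (S := fun (x : ℕ) (y : ℕ × Info) => g y.1 = y.2 ∧ x ∈ y.2.2) ?_
        exact REIn.and (hg.comp Computable.snd) (REIn.of_re (mem_list (by fun_prop) (by fun_prop)))
      refine h1.of_eq fun x => ?_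
      rw [hneg]
      constructor
      · rintro ⟨y, h2, h3⟩
        exact ⟨y.1, by rw [h2]; exact h3⟩
      · rintro ⟨s, hs⟩
        exact ⟨(s, g s), rfl, hs⟩
  · intro hD
    obtain ⟨j, hj⟩ := smn (α := Unit) (β := ℕ) (P := fun _ x => x ∈ D) (comp hD Computable.snd)
    obtain ⟨x, h | h⟩ := (hst (j ())).2.2.2.1
    · exact (hok _).2 x h.2 ((hj.2 () x).1 h.1)
    · exact h.1 ((hj.2 () x).2 ⟨_, h.2⟩)
  · intro e he
    rw [Red_iff] at he
    obtain ⟨⟨R1, hR1, h1⟩, ⟨R0, hR0, h0⟩⟩ := he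
    have h2 : REPred fun z : Unit × (ℕ × Bool × Info) =>
        (z.2.2.1 = true ∧ R1 z.2.1 z.2.2.2) ∨ (z.2.2.1 = false ∧ R0 z.2.1 z.2.2.2) := by
      refine Pool.Agent.Helper578.JD.RE.or
        (Pool.Agent.Helper578.JD.RE.and (eq (by fun_prop) (by fun_prop)) ?_)
        (Pool.Agent.Helper578.JD.RE.and (eq (by fun_prop) (by fun_prop)) ?_)
      · exact comp hR1 (f := fun z : Unit × (ℕ × Bool × Info) => (z.2.1, z.2.2.2)) (by fun_prop)
      · exact comp hR0 (f := fun z : Unit × (ℕ × Bool × Info) => (z.2.1, z.2.2.2)) (by fun_prop)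
    obtain ⟨i, -, hi⟩ := smn (α := Unit) (β := ℕ × Bool × Info) (P := fun _ z =>
      (z.2.1 = true ∧ R1 z.1 z.2.2) ∨ (z.2.1 = false ∧ R0 z.1 z.2.2)) h2
    have hi1 : ∀ x c, W (i ()) (encode (x, true, c)) ↔ R1 x c := by
      intro x c; rw [hi]; simp
    have hi0 : ∀ x c, W (i ()) (encode (x, false, c)) ↔ R0 x c := by
      intro x c; rw [hi]; simp
    set s := Nat.pair e (i ()) with hs
    have h3 := (hst s).2.2.2.2
    simp only [hs, Nat.unpair_pair] at h3
    rw [← hs] at h3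
    have hokE : ∀ c, Ext c (g (s + 1)) → Ok D c := fun c hc =>
      ⟨fun x hx => (hok _).1 x (hc.1 x hx), fun x hx => (hok _).2 x (hc.2 x hx)⟩
    rcases h3 with ⟨y, hy1, hy2 | hy2⟩ | h3
    · exact absurd ((h1 y.1).2 ⟨y.2, (hi1 _ _).1 hy2.1, hokE _ hy1⟩) hy2.2
    · exact absurd hy2.2 ((h0 y.1).2 ⟨y.2, (hi0 _ _).1 hy2.1, hokE _ hy1⟩)
    · constructor
      · have h4 : REPred fun x : ℕ => ∃ c : Info, R1 x c ∧ Cons (app (g s) c) := by
          refine ex (p := fun (x : ℕ) (c : Info) => R1 x c ∧ Cons (app (g s) c)) ?_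
          exact Pool.Agent.Helper578.JD.RE.and hR1 (cons_re (by fun_prop))
        refine h4.of_eq fun x => ?_
        constructor
        · rintro ⟨c, hc1, hc2⟩
          by_contra hx
          obtain ⟨c', hc3, hc4⟩ := (h0 x).1 hx
          exact h3 ⟨(x, c, c'), (hi1 _ _).2 hc1, (hi0 _ _).2 hc3, hc2,
            okCons (okApp (hok s) hc4)⟩
        · intro hx
          obtain ⟨c, hc1, hc2⟩ := (h1 x).1 hx
          exact ⟨c, hc1, okCons (okApp (hok s) hc2)⟩
      · have h4 : REPred fun x : ℕ => ∃ c : Info, R0 x c ∧ Cons (app (g s) c) := by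
          refine ex (p := fun (x : ℕ) (c : Info) => R0 x c ∧ Cons (app (g s) c)) ?_
          exact Pool.Agent.Helper578.JD.RE.and hR0 (cons_re (by fun_prop))
        refine h4.of_eq fun x => ?_
        constructor
        · rintro ⟨c, hc1, hc2⟩ hx
          obtain ⟨c', hc3, hc4⟩ := (h1 x).1 hx
          exact h3 ⟨(x, c', c), (hi1 _ _).2 hc3, (hi0 _ _).2 hc1,
            okCons (okApp (hok s) hc4), hc2⟩
        · intro hx
          obtain ⟨c, hc1, hc2⟩ := (h0 x).1 hx
          exact ⟨c, hc1, okCons (okApp (hok s) hc2)⟩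

/-- The family of all sets which are reducible to the complement of `zeroOmega` by a partial
computable function. -/
def fam (e : ℕ) : Set ℕ := {x | ∃ y ∈ (Denumerable.ofNat Code e).eval x, y ∉ zeroOmega}

theorem eval_graph_re : REPred fun z : (ℕ × ℕ) × ℕ => z.2 ∈ (Denumerable.ofNat Code z.1.1).eval z.1.2 := by
  have h1 : Computable fun x : (ℕ × Code) × ℕ => (Code.evaln x.1.1 x.1.2 x.2) :=
    Code.primrec_evaln.to_comp
  have h2 : REPred fun z : (ℕ × ℕ) × ℕ =>
      ∃ k, Code.evaln k (Denumerable.ofNat Code z.1.1) z.1.2 = some z.2 := by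
    refine exN (p := fun (z : (ℕ × ℕ) × ℕ) k =>
      Code.evaln k (Denumerable.ofNat Code z.1.1) z.1.2 = some z.2) (eq ?_ (by fun_prop))
    have h3 : Computable fun p : ((ℕ × ℕ) × ℕ) × ℕ => Denumerable.ofNat Code p.1.1.1 :=
      (Computable.ofNat Code).comp (by fun_prop)
    exact h1.comp (g := fun p : ((ℕ × ℕ) × ℕ) × ℕ =>
      ((p.2, Denumerable.ofNat Code p.1.1.1), p.1.1.2)) ((Computable.snd.pair h3).pair (by fun_prop))
  exact h2.of_eq fun z => Code.evaln_complete.symm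

theorem fam_mem : REIn zeroOmega fun x : ℕ × ℕ => x.2 ∈ fam x.1 := by
  refine REIn.ex (S := fun (x : ℕ × ℕ) (y : ℕ) =>
    y ∈ (Denumerable.ofNat Code x.1).eval x.2 ∧ y ∉ zeroOmega) ?_
  exact REIn.and (REIn.of_re eval_graph_re) (REIn.not_mem Computable.snd)

theorem fam_not_mem : REIn zeroOmega fun x : ℕ × ℕ => x.2 ∉ fam x.1 := by
  have h1 : REIn zeroOmega fun x : ℕ × ℕ => ¬ W x.1 x.2 ∨
      ∃ y, y ∈ (Denumerable.ofNat Code x.1).eval x.2 ∧ y ∈ zeroOmega := by
    refine REIn.or (co_re_in W_re) (REIn.ex (S := fun (x : ℕ × ℕ) (y : ℕ) =>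
      y ∈ (Denumerable.ofNat Code x.1).eval x.2 ∧ y ∈ zeroOmega) ?_)
    exact REIn.and (REIn.of_re eval_graph_re) (REIn.mem Computable.snd)
  refine h1.of_eq fun x => ?_
  constructor
  · rintro (h | ⟨y, h2, h3⟩) ⟨y', h4, h5⟩
    · exact h (Part.dom_iff_mem.2 ⟨y', h4⟩)
    · exact h5 (Part.mem_unique h2 h4 ▸ h3)
  · intro h
    by_cases hw : W x.1 x.2
    · obtain ⟨y, hy⟩ := Part.dom_iff_mem.1 hw
      refine Or.inr ⟨y, hy, ?_⟩
      by_contra hcon
      exact h ⟨y, hy, hcon⟩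
    · exact Or.inl hw

theorem exists_fam {X : Set ℕ} {p : ℕ → Prop} (hp : REPred p) {f : ℕ → ℕ} (hf : Computable f)
    (h : ∀ x, x ∈ X ↔ p x ∧ f x ∉ zeroOmega) : ∃ e, X = fam e := by
  have h1 : Partrec fun x => (Part.assert (p x) fun _ => Part.some ()).map fun _ => f x :=
    Partrec.map hp (hf.comp Computable.fst).to₂
  obtain ⟨c, hc⟩ := Code.exists_code.1 (Partrec.nat_iff.1 h1)
  refine ⟨encode c, ?_⟩
  ext x
  rw [h]
  unfold fam
  simp only [Set.mem_ofPred_eq, Denumerable.ofNat_encode, hc]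
  constructor
  · rintro ⟨h2, h3⟩
    exact ⟨f x, ⟨⟨h2, trivial⟩, rfl⟩, h3⟩
  · rintro ⟨y, ⟨h2, h4⟩, h3⟩
    exact ⟨h2.1, by rw [← h4] at h3; exact h3⟩

end Pool.Agent.H437Z.CT
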