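import Pool.Agent.H437Z.CT.Diag

/-!
The codes of terms and formulas of a computable signature are computably enumerable.
-/

namespace Pool.Agent.H437Z.CT

open Encodable FirstOrder FirstOrder.Language
open Pool.Agent.Helper578.JD (Info W Red smn recursion W_re Red_iff reMono Cons app okCons okApp)
open Pool.Agent.Helper578.JD.Oracle Pool.Agent.Helper578.JD.RE

theorem lt_encode_of_mem {l : List ℕ} {x : ℕ} (h : x ∈ l) : x < encode l := by
  induction l with
  | nil => simp at h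
  | cons a l ih =>
    rw [encode_list_cons]
    rcases List.mem_cons.1 h with rfl | h
    · exact Nat.lt_succ_of_le (Nat.left_le_pair _ _)
    · exact Nat.lt_succ_of_le ((ih h).le.trans (Nat.right_le_pair _ _))

theorem lt_pair_of_pos {a b : ℕ} (ha : 0 < a) : b < Nat.pair a b := by
  have := Nat.add_le_pair a b
  omega

theorem ofFn_choose {γ : Type} {l : List ℕ} {g : γ → ℕ} (h : ∀ x ∈ l, ∃ t, g t = x) :
    ∃ ts : Fin l.length → γ, (List.ofFn fun j => g (ts j)) = l := by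
  choose ts hts using fun j : Fin l.length => h (l.get j) (List.get_mem l j)
  refine ⟨ts, ?_⟩
  simp only [hts]
  exact List.ofFn_get l

variable {σ : Signature}

theorem term_re (hσ : σ.IsComputable) :
    REPred fun x : ℕ × ℕ => ∃ τ : σ.lang.Term (Empty ⊕ Fin x.1), gnTerm τ = x.2 := by
  have hF := hσ.1.to_re
  have h1 : REPred fun x : ℕ × (ℕ × ℕ) => (∃ i, i < x.2.1 ∧ x.2.2 = Nat.pair 0 i) ∨
      ∃ y : ℕ × List ℕ, x.2.2 = Nat.pair 1 (Nat.pair y.1 (encode y.2)) ∧ σ.F y.2.length y.1 ∧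
        ∀ z ∈ y.2, W x.1 (encode (x.2.1, z)) := by
    refine Pool.Agent.Helper578.JD.RE.or ?_ ?_
    · refine ex (p := fun (x : ℕ × (ℕ × ℕ)) (i : ℕ) => i < x.2.1 ∧ x.2.2 = Nat.pair 0 i) ?_
      exact Pool.Agent.Helper578.JD.RE.and (lt (by fun_prop) (by fun_prop))
        (eq (by fun_prop) (by fun_prop))
    · refine ex (p := fun (x : ℕ × (ℕ × ℕ)) (y : ℕ × List ℕ) =>
        x.2.2 = Nat.pair 1 (Nat.pair y.1 (encode y.2)) ∧ σ.F y.2.length y.1 ∧
        ∀ z ∈ y.2, W x.1 (encode (x.2.1, z))) ?_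
      refine Pool.Agent.Helper578.JD.RE.and (eq (by fun_prop) (by fun_prop))
        (Pool.Agent.Helper578.JD.RE.and ?_ ?_)
      · exact comp hF (f := fun w : (ℕ × (ℕ × ℕ)) × (ℕ × List ℕ) => (w.2.2.length, w.2.1))
          (by fun_prop)
      · exact all_mem (p := fun (w : (ℕ × (ℕ × ℕ)) × (ℕ × List ℕ)) z =>
          W w.1.1 (encode (w.1.2.1, z))) (l := fun w => w.2.2)
          (Wre (by fun_prop) (by fun_prop)) (by fun_prop)
  obtain ⟨r, hr⟩ := recursion (β := ℕ × ℕ) (P := fun r x => (∃ i, i < x.1 ∧ x.2 = Nat.pair 0 i) ∨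
      ∃ y : ℕ × List ℕ, x.2 = Nat.pair 1 (Nat.pair y.1 (encode y.2)) ∧ σ.F y.2.length y.1 ∧
        ∀ z ∈ y.2, W r (encode (x.1, z))) h1
  have h2 : REPred fun x : ℕ × ℕ => W r (encode x) := Wre (by fun_prop) (by fun_prop)
  refine h2.of_eq fun x => ?_
  obtain ⟨k, t⟩ := x
  simp only
  constructor
  · induction t using Nat.strong_induction_on with
    | _ t ih =>
      intro h
      rcases (hr (k, t)).1 h with ⟨i, hi, h3⟩ | ⟨⟨i, l⟩, h3, h4, h5⟩
      · exact ⟨.var (.inr ⟨i, hi⟩), h3.symm⟩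
      · simp only at h3 h4 h5
        have h6 : ∀ z ∈ l, ∃ τ : σ.lang.Term (Empty ⊕ Fin k), gnTerm τ = z := by
          intro z hz
          refine ih z ?_ (h5 z hz)
          rw [h3]
          exact (lt_encode_of_mem hz).trans_le
            ((Nat.right_le_pair _ _).trans (Nat.right_le_pair _ _))
        obtain ⟨ts, hts⟩ := ofFn_choose h6
        refine ⟨.func (l := l.length) ⟨i, h4⟩ ts, ?_⟩
        rw [gnTerm, hts, h3]
  · rintro ⟨τ, rfl⟩
    induction τ with
    | var v =>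
      rcases v with e | i
      · exact e.elim
      · exact (hr (k, _)).2 (Or.inl ⟨i, i.2, rfl⟩)
    | func f ts ih =>
      refine (hr (k, _)).2 (Or.inr ⟨(f.1, List.ofFn fun j => gnTerm (ts j)), rfl, ?_, ?_⟩)
      · simp only [List.length_ofFn]; exact f.2
      · intro z hz
        obtain ⟨j, rfl⟩ := List.mem_ofFn.1 hz
        exact ih j

theorem formula_re (hσ : σ.IsComputable) :
    REPred fun x : ℕ × ℕ => ∃ φ : σ.lang.BoundedFormula Empty x.1, gn φ = x.2 := by
  have hR := hσ.2.to_re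
  have hT := term_re hσ
  let T : ℕ → ℕ → Prop := fun k t => ∃ τ : σ.lang.Term (Empty ⊕ Fin k), gnTerm τ = t
  have hT' : REPred fun x : ℕ × ℕ => T x.1 x.2 := hT
  let P : ℕ → ℕ × ℕ → Prop := fun r x => x.2 = Nat.pair 0 0 ∨
      (∃ y : ℕ × ℕ, x.2 = Nat.pair 1 (Nat.pair y.1 y.2) ∧ T x.1 y.1 ∧ T x.1 y.2) ∨
      (∃ y : ℕ × List ℕ, x.2 = Nat.pair 2 (Nat.pair y.1 (encode y.2)) ∧ σ.R y.2.length y.1 ∧
        ∀ z ∈ y.2, T x.1 z) ∨
      (∃ y : ℕ × ℕ, x.2 = Nat.pair 3 (Nat.pair y.1 y.2) ∧ W r (encode (x.1, y.1)) ∧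
        W r (encode (x.1, y.2))) ∨
      (∃ y : ℕ, x.2 = Nat.pair 4 y ∧ W r (encode (x.1 + 1, y)))
  have h1 : REPred fun x : ℕ × (ℕ × ℕ) => P x.1 x.2 := by
    refine Pool.Agent.Helper578.JD.RE.or (eq (by fun_prop) (by fun_prop))
      (Pool.Agent.Helper578.JD.RE.or ?_ (Pool.Agent.Helper578.JD.RE.or ?_
        (Pool.Agent.Helper578.JD.RE.or ?_ ?_)))
    · refine ex (p := fun (x : ℕ × (ℕ × ℕ)) (y : ℕ × ℕ) =>
        x.2.2 = Nat.pair 1 (Nat.pair y.1 y.2) ∧ T x.2.1 y.1 ∧ T x.2.1 y.2) ?_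
      refine Pool.Agent.Helper578.JD.RE.and (eq (by fun_prop) (by fun_prop))
        (Pool.Agent.Helper578.JD.RE.and ?_ ?_)
      · exact comp hT' (f := fun w : (ℕ × (ℕ × ℕ)) × (ℕ × ℕ) => (w.1.2.1, w.2.1)) (by fun_prop)
      · exact comp hT' (f := fun w : (ℕ × (ℕ × ℕ)) × (ℕ × ℕ) => (w.1.2.1, w.2.2)) (by fun_prop)
    · refine ex (p := fun (x : ℕ × (ℕ × ℕ)) (y : ℕ × List ℕ) =>
        x.2.2 = Nat.pair 2 (Nat.pair y.1 (encode y.2)) ∧ σ.R y.2.length y.1 ∧
        ∀ z ∈ y.2, T x.2.1 z) ?_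
      refine Pool.Agent.Helper578.JD.RE.and (eq (by fun_prop) (by fun_prop))
        (Pool.Agent.Helper578.JD.RE.and ?_ ?_)
      · exact comp hR (f := fun w : (ℕ × (ℕ × ℕ)) × (ℕ × List ℕ) => (w.2.2.length, w.2.1))
          (by fun_prop)
      · refine all_mem (p := fun (w : (ℕ × (ℕ × ℕ)) × (ℕ × List ℕ)) z => T w.1.2.1 z)
          (l := fun w => w.2.2) ?_ (by fun_prop)
        exact comp hT' (f := fun w : ((ℕ × (ℕ × ℕ)) × (ℕ × List ℕ)) × ℕ => (w.1.1.2.1, w.2))
          (by fun_prop)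
    · refine ex (p := fun (x : ℕ × (ℕ × ℕ)) (y : ℕ × ℕ) =>
        x.2.2 = Nat.pair 3 (Nat.pair y.1 y.2) ∧ W x.1 (encode (x.2.1, y.1)) ∧
        W x.1 (encode (x.2.1, y.2))) ?_
      exact Pool.Agent.Helper578.JD.RE.and (eq (by fun_prop) (by fun_prop))
        (Pool.Agent.Helper578.JD.RE.and (Wre (by fun_prop) (by fun_prop))
          (Wre (by fun_prop) (by fun_prop)))
    · refine ex (p := fun (x : ℕ × (ℕ × ℕ)) (y : ℕ) =>
        x.2.2 = Nat.pair 4 y ∧ W x.1 (encode (x.2.1 + 1, y))) ?_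
      exact Pool.Agent.Helper578.JD.RE.and (eq (by fun_prop) (by fun_prop))
        (Wre (by fun_prop) (by fun_prop))
  obtain ⟨r, hr⟩ := recursion (β := ℕ × ℕ) (P := P) h1
  have h2 : REPred fun x : ℕ × ℕ => W r (encode x) := Wre (by fun_prop) (by fun_prop)
  refine h2.of_eq fun x => ?_
  obtain ⟨k, t⟩ := x
  simp only
  constructor
  · induction t using Nat.strong_induction_on generalizing k with
    | _ t ih =>
      intro h
      rcases (hr (k, t)).1 h with h3 | ⟨⟨a, b⟩, h3, ⟨τ, h4⟩, ⟨τ', h5⟩⟩ | ⟨⟨i, l⟩, h3, h4, h5⟩ |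
        ⟨⟨a, b⟩, h3, h4, h5⟩ | ⟨a, h3, h4⟩
      · exact ⟨.falsum, h3.symm⟩
      · refine ⟨.equal τ τ', ?_⟩
        simp only at h3 h4 h5
        rw [gn, h4, h5, h3]
      · simp only at h3 h4 h5
        obtain ⟨ts, hts⟩ := ofFn_choose h5
        refine ⟨.rel (l := l.length) ⟨i, h4⟩ ts, ?_⟩
        rw [gn, hts, h3]
      · simp only at h3 h4 h5
        have h6 : Nat.pair a b < t := by rw [h3]; exact lt_pair_of_pos (by omega)
        obtain ⟨φ, hφ⟩ := ih a ((Nat.left_le_pair _ _).trans_lt h6) k h4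
        obtain ⟨ψ, hψ⟩ := ih b ((Nat.right_le_pair _ _).trans_lt h6) k h5
        refine ⟨.imp φ ψ, ?_⟩
        rw [gn, hφ, hψ, h3]
      · simp only at h3 h4
        have h6 : a < t := by rw [h3]; exact lt_pair_of_pos (by omega)
        obtain ⟨φ, hφ⟩ := ih a h6 (k + 1) h4
        refine ⟨.all φ, ?_⟩
        rw [gn, hφ, h3]
  · rintro ⟨φ, rfl⟩
    induction φ with
    | falsum => exact (hr (_, _)).2 (Or.inl rfl)
    | equal s t =>
      exact (hr (_, _)).2 (Or.inr (Or.inl ⟨(gnTerm s, gnTerm t), rfl, ⟨s, rfl⟩, ⟨t, rfl⟩⟩))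
    | rel R ts =>
      refine (hr (_, _)).2 (Or.inr (Or.inr (Or.inl
        ⟨(R.1, List.ofFn fun j => gnTerm (ts j)), rfl, ?_, ?_⟩)))
      · simp only [List.length_ofFn]; exact R.2
      · intro z hz
        obtain ⟨j, rfl⟩ := List.mem_ofFn.1 hz
        exact ⟨ts j, rfl⟩
    | imp φ ψ ih1 ih2 =>
      exact (hr (_, _)).2 (Or.inr (Or.inr (Or.inr (Or.inl ⟨(gn φ, gn ψ), rfl, ih1, ih2⟩))))
    | all φ ih =>
      exact (hr (_, _)).2 (Or.inr (Or.inr (Or.inr (Or.inr ⟨gn φ, rfl, ih⟩))))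

/-- The numbering of terms is injective. -/
theorem gnTerm_injective {k : ℕ} :
    Function.Injective (gnTerm : σ.lang.Term (Empty ⊕ Fin k) → ℕ) := by
  intro s
  induction s with
  | var v =>
    rcases v with e | i
    · exact e.elim
    · rintro (v | ⟨f, ts⟩) h
      · rcases v with e | j
        · exact e.elim
        · simp only [gnTerm, Nat.pair_eq_pair, true_and] at h
          rw [Fin.ext h]
      · simp [gnTerm, Nat.pair_eq_pair] at h
  | @func n f ts ih =>
    rintro (v | @⟨m, g, us⟩) h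
    · rcases v with e | j
      · exact e.elim
      · simp [gnTerm, Nat.pair_eq_pair] at h
    · simp only [gnTerm, Nat.pair_eq_pair, true_and, encode_inj] at h
      obtain ⟨h1, h2⟩ := h
      have h3 : n = m := by simpa using congrArg List.length h2
      subst h3
      have h4 : f = g := Subtype.ext h1
      have h5 : ts = us := funext fun j => ih j (congrFun (List.ofFn_injective h2) j)
      rw [h4, h5]

/-- The numbering of formulas is injective. -/
theorem gn_injective {k : ℕ} :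
    Function.Injective (gn : σ.lang.BoundedFormula Empty k → ℕ) := by
  intro φ
  induction φ with
  | falsum => rintro (_ | _ | _ | _ | _) h <;> simp [gn, Nat.pair_eq_pair] at h ⊢
  | equal s t =>
    rintro (_ | ⟨s', t'⟩ | _ | _ | _) h <;> simp only [gn, Nat.pair_eq_pair] at h
    · omega
    · rw [gnTerm_injective h.2.1, gnTerm_injective h.2.2]
    all_goals omega
  | @rel k n R ts =>
    rintro (_ | _ | @⟨_, m, R', us⟩ | _ | _) h <;> simp only [gn, Nat.pair_eq_pair] at h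
    · omega
    · omega
    · obtain ⟨-, h1, h2⟩ := h
      rw [encode_inj] at h2
      have h3 : n = m := by simpa using congrArg List.length h2
      subst h3
      have h4 : R = R' := Subtype.ext h1
      have h5 : ts = us := funext fun j => gnTerm_injective (congrFun (List.ofFn_injective h2) j)
      rw [h4, h5]
    all_goals omega
  | imp φ ψ ih1 ih2 =>
    rintro (_ | _ | _ | ⟨φ', ψ'⟩ | _) h <;> simp only [gn, Nat.pair_eq_pair] at h
    · omega
    · omega
    · omega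
    · rw [ih1 h.2.1, ih2 h.2.2]
    · omega
  | all φ ih =>
    rintro (_ | _ | _ | _ | φ') h <;> simp only [gn, Nat.pair_eq_pair] at h
    · omega
    · omega
    · omega
    · omega
    · rw [ih h.2]

end Pool.Agent.H437Z.CT
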