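import Pool.Agent.H437Z.CT.Syn

/-!
Truth in a computable structure is reducible to `zeroOmega`.
-/

namespace Pool.Agent.H437Z.CT

open Encodable FirstOrder FirstOrder.Language
open Pool.Agent.Helper578.JD (Info W Red smn recursion W_re Red_iff reMono Cons app okCons okApp)
open Pool.Agent.Helper578.JD.Oracle Pool.Agent.Helper578.JD.RE

variable {σ : Signature} {U : Set ℕ} [σ.lang.Structure U]

/-- Graph of the functions of the structure. -/
def FG (σ : Signature) (U : Set ℕ) [σ.lang.Structure U] (p : ℕ × List ℕ × ℕ) : Prop :=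
  ∃ (n : ℕ) (f : σ.lang.Functions n) (a : Fin n → U),
    f.1 = p.1 ∧ (List.ofFn fun j => (a j : ℕ)) = p.2.1 ∧ (Structure.funMap f a : U) = p.2.2

/-- Graph of the relations of the structure. -/
def RG (σ : Signature) (U : Set ℕ) [σ.lang.Structure U] (p : ℕ × List ℕ) : Prop :=
  ∃ (n : ℕ) (r : σ.lang.Relations n) (a : Fin n → U),
    r.1 = p.1 ∧ (List.ofFn fun j => (a j : ℕ)) = p.2 ∧ Structure.RelMap r a

theorem FG_iff {n : ℕ} (f : σ.lang.Functions n) (a : Fin n → U) (v : ℕ) :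
    FG σ U (f.1, (List.ofFn fun j => (a j : ℕ)), v) ↔ ((Structure.funMap f a : U) : ℕ) = v := by
  constructor
  · rintro ⟨m, g, b, h1, h2, h3⟩
    simp only at h1 h2 h3
    have h4 : m = n := by simpa using congrArg List.length h2
    subst h4
    have h5 : g = f := Subtype.ext h1
    have h6 : b = a := funext fun j => Subtype.ext (congrFun (List.ofFn_injective h2) j)
    rw [← h5, ← h6]; exact h3
  · intro h
    exact ⟨n, f, a, rfl, rfl, h⟩

theorem RG_iff {n : ℕ} (r : σ.lang.Relations n) (a : Fin n → U) :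
    RG σ U (r.1, (List.ofFn fun j => (a j : ℕ))) ↔ Structure.RelMap r a := by
  constructor
  · rintro ⟨m, g, b, h1, h2, h3⟩
    simp only at h1 h2
    have h4 : m = n := by simpa using congrArg List.length h2
    subst h4
    have h5 : g = r := Subtype.ext h1
    have h6 : b = a := funext fun j => Subtype.ext (congrFun (List.ofFn_injective h2) j)
    rw [← h5, ← h6]; exact h3
  · intro h
    exact ⟨n, r, a, rfl, rfl, h⟩

/-- Componentwise version of a ternary relation. -/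
def Lift (V : ℕ × List ℕ × ℕ → Prop) (ts l vs : List ℕ) : Prop :=
  ts.length = vs.length ∧
    ∀ j < ts.length, ∃ u : ℕ × ℕ, ts[j]? = some u.1 ∧ vs[j]? = some u.2 ∧ V (u.1, l, u.2)

theorem lift_re {α : Type*} [Primcodable α] {V : α → ℕ × List ℕ × ℕ → Prop}
    (hV : REPred fun x : α × (ℕ × List ℕ × ℕ) => V x.1 x.2) {f g h : α → List ℕ}
    (hf : Computable f) (hg : Computable g) (hh : Computable h) :
    REPred fun a => Lift (V a) (f a) (g a) (h a) := by
  refine Pool.Agent.Helper578.JD.RE.and (eq (by fun_prop) (by fun_prop)) ?_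
  refine all_lt (p := fun a j => ∃ u : ℕ × ℕ, (f a)[j]? = some u.1 ∧ (h a)[j]? = some u.2 ∧
    V a (u.1, g a, u.2)) ?_ (by fun_prop)
  refine ex (p := fun (x : α × ℕ) (u : ℕ × ℕ) => (f x.1)[x.2]? = some u.1 ∧
    (h x.1)[x.2]? = some u.2 ∧ V x.1 (u.1, g x.1, u.2)) ?_
  refine Pool.Agent.Helper578.JD.RE.and (eq (by fun_prop) (by fun_prop))
    (Pool.Agent.Helper578.JD.RE.and (eq (by fun_prop) (by fun_prop)) ?_)
  exact comp hV (f := fun y : (α × ℕ) × (ℕ × ℕ) => (y.1.1, (y.2.1, g y.1.1, y.2.2)))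
    (by fun_prop)

theorem lift_iff {V : ℕ × List ℕ × ℕ → Prop} {n : ℕ} {t a : Fin n → ℕ} {l : List ℕ}
    (h : ∀ j v, V (t j, l, v) ↔ a j = v) (vs : List ℕ) :
    Lift V (List.ofFn t) l vs ↔ vs = List.ofFn a := by
  constructor
  · rintro ⟨h1, h2⟩
    rw [List.length_ofFn] at h1 h2
    refine List.ext_getElem (by rw [List.length_ofFn]; exact h1.symm) fun j hj hj' => ?_
    have hjn : j < n := by omega
    obtain ⟨u, hu1, hu2, hu3⟩ := h2 j hjn
    rw [List.getElem?_eq_getElem (by rw [List.length_ofFn]; exact hjn), List.getElem_ofFn] at hu1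
    rw [List.getElem?_eq_getElem hj] at hu2
    rw [List.getElem_ofFn, Option.some.inj hu2]
    rw [← Option.some.inj hu1] at hu3
    exact ((h _ _).1 hu3).symm
  · rintro rfl
    refine ⟨by simp, fun j hj => ?_⟩
    rw [List.length_ofFn] at hj
    refine ⟨(t ⟨j, hj⟩, a ⟨j, hj⟩), ?_, ?_, (h _ _).2 rfl⟩
    · rw [List.getElem?_eq_getElem (by rw [List.length_ofFn]; exact hj), List.getElem_ofFn]
    · rw [List.getElem?_eq_getElem (by rw [List.length_ofFn]; exact hj), List.getElem_ofFn]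

/-- The values of terms are given by a c.e. relation. -/
theorem exists_termVal (hU : IsComputableStructure σ U) :
    ∃ V : ℕ × List ℕ × ℕ → Prop, REPred V ∧
      ∀ (k : ℕ) (τ : σ.lang.Term (Empty ⊕ Fin k)) (xs : Fin k → U) (v : ℕ),
        V (gnTerm τ, (List.ofFn fun j => (xs j : ℕ)), v) ↔
          ((τ.realize (Sum.elim (default : Empty → U) xs) : U) : ℕ) = v := by
  have hF : REPred (FG σ U) := hU.2.1.to_re
  let P : ℕ → ℕ × List ℕ × ℕ → Prop := fun r x =>
    (∃ i, x.1 = Nat.pair 0 i ∧ x.2.1[i]? = some x.2.2) ∨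
    ∃ y : ℕ × List ℕ × List ℕ, x.1 = Nat.pair 1 (Nat.pair y.1 (encode y.2.1)) ∧
      Lift (fun z => W r (encode z)) y.2.1 x.2.1 y.2.2 ∧ FG σ U (y.1, y.2.2, x.2.2)
  have h1 : REPred fun x : ℕ × (ℕ × List ℕ × ℕ) => P x.1 x.2 := by
    refine Pool.Agent.Helper578.JD.RE.or ?_ ?_
    · refine ex (p := fun (x : ℕ × (ℕ × List ℕ × ℕ)) (i : ℕ) =>
        x.2.1 = Nat.pair 0 i ∧ x.2.2.1[i]? = some x.2.2.2) ?_
      exact Pool.Agent.Helper578.JD.RE.and (eq (by fun_prop) (by fun_prop))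
        (eq (by fun_prop) (by fun_prop))
    · refine ex (p := fun (x : ℕ × (ℕ × List ℕ × ℕ)) (y : ℕ × List ℕ × List ℕ) =>
        x.2.1 = Nat.pair 1 (Nat.pair y.1 (encode y.2.1)) ∧
        Lift (fun z => W x.1 (encode z)) y.2.1 x.2.2.1 y.2.2 ∧ FG σ U (y.1, y.2.2, x.2.2.2)) ?_
      refine Pool.Agent.Helper578.JD.RE.and (eq (by fun_prop) (by fun_prop))
        (Pool.Agent.Helper578.JD.RE.and ?_ ?_)
      · exact lift_re (V := fun (w : (ℕ × (ℕ × List ℕ × ℕ)) × (ℕ × List ℕ × List ℕ)) z =>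
          W w.1.1 (encode z)) (Wre (by fun_prop) (by fun_prop)) (by fun_prop) (by fun_prop)
          (by fun_prop)
      · exact comp hF (f := fun w : (ℕ × (ℕ × List ℕ × ℕ)) × (ℕ × List ℕ × List ℕ) =>
          (w.2.1, w.2.2.2, w.1.2.2.2)) (by fun_prop)
  obtain ⟨r, hr⟩ := recursion (β := ℕ × List ℕ × ℕ) (P := P) h1
  refine ⟨fun z => W r (encode z), Wre (by fun_prop) (by fun_prop), fun k τ xs => ?_⟩
  induction τ with
  | var w =>
    intro v
    rcases w with e | i
    · exact e.elim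
    · refine (hr _).trans ?_
      have h2 : (List.ofFn fun j => (xs j : ℕ))[(i : ℕ)]? = some (xs i : ℕ) := by
        rw [List.getElem?_eq_getElem (by rw [List.length_ofFn]; exact i.2), List.getElem_ofFn]
      constructor
      · rintro (⟨j, h3, h4⟩ | ⟨y, h3, -⟩)
        · simp only [gnTerm, Nat.pair_eq_pair, true_and] at h3
          subst h3
          simp only at h4
          rw [h2] at h4
          exact Option.some.inj h4
        · simp [gnTerm, Nat.pair_eq_pair] at h3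
      · intro h3
        refine Or.inl ⟨i, rfl, ?_⟩
        simp only
        rw [h2, ← h3]
        rfl
  | func f ts ih =>
    intro v
    refine (hr _).trans ?_
    have h2 := lift_iff (V := fun z => W r (encode z)) (t := fun j => gnTerm (ts j))
      (a := fun j => (((ts j).realize (Sum.elim (default : Empty → U) xs) : U) : ℕ))
      (l := List.ofFn fun j => (xs j : ℕ)) ih
    constructor
    · rintro (⟨j, h3, -⟩ | ⟨⟨i, l, vs⟩, h3, h4, h5⟩)
      · simp [gnTerm, Nat.pair_eq_pair] at h3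
      · simp only [gnTerm, Nat.pair_eq_pair, true_and, encode_inj] at h3
        obtain ⟨h6, h7⟩ := h3
        subst h6 h7
        simp only at h4 h5
        rw [h2] at h4
        subst h4
        exact (FG_iff f _ v).1 h5
    · intro h3
      exact Or.inr ⟨(f.1, List.ofFn fun j => gnTerm (ts j), List.ofFn fun j =>
        (((ts j).realize (Sum.elim (default : Empty → U) xs) : U) : ℕ)), rfl,
        (h2 _).2 rfl, (FG_iff f _ v).2 h3⟩

theorem ofFn_snoc {k : ℕ} (xs : Fin k → U) (a : U) :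
    (List.ofFn fun j => ((Fin.snoc (α := fun _ => U) xs a j : U) : ℕ)) =
      (List.ofFn fun j => (xs j : ℕ)) ++ [(a : ℕ)] := by
  rw [List.ofFn_succ']
  simp

/-- Falsity of formulas is reducible to the iterated jumps. -/
theorem exists_false (hU : IsComputableStructure σ U) :
    ∃ G : ℕ × ℕ × List ℕ → ℕ, Computable G ∧
      ∀ (k : ℕ) (φ : σ.lang.BoundedFormula Empty k) (xs : Fin k → U) (n : ℕ), gn φ ≤ n →
        (G (n, gn φ, List.ofFn fun j => (xs j : ℕ)) ∈ jump^[n + 1] ∅ ↔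
          ¬ φ.Realize default xs) := by
  obtain ⟨V, hV, hVs⟩ := exists_termVal hU
  have hR : REPred fun x => ¬ RG σ U x := hU.2.2.not.to_re
  have hUm : REPred (· ∈ U) := hU.1.to_re
  let P : ℕ → ℕ × ℕ × List ℕ → Info → Prop := fun r x c =>
    x.2.1 = Nat.pair 0 0 ∨
    (∃ y : (ℕ × ℕ) × (ℕ × ℕ), x.2.1 = Nat.pair 1 (Nat.pair y.1.1 y.1.2) ∧
      V (y.1.1, x.2.2, y.2.1) ∧ V (y.1.2, x.2.2, y.2.2) ∧ y.2.1 ≠ y.2.2) ∨
    (∃ y : ℕ × List ℕ × List ℕ, x.2.1 = Nat.pair 2 (Nat.pair y.1 (encode y.2.1)) ∧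
      Lift V y.2.1 x.2.2 y.2.2 ∧ ¬ RG σ U (y.1, y.2.2)) ∨
    (∃ y : ℕ × ℕ, x.2.1 = Nat.pair 3 (Nat.pair y.1 y.2) ∧
      cur r (encode (x.1 - 1, y.1, x.2.2)) ∈ c.2 ∧ cur r (encode (x.1 - 1, y.2, x.2.2)) ∈ c.1) ∨
    (∃ y : ℕ × ℕ, x.2.1 = Nat.pair 4 y.1 ∧ y.2 ∈ U ∧
      cur r (encode (x.1 - 1, y.1, x.2.2 ++ [y.2])) ∈ c.1)
  have h1 : REPred fun x : ℕ × (ℕ × ℕ × List ℕ) × Info => P x.1 x.2.1 x.2.2 := by
    refine Pool.Agent.Helper578.JD.RE.or (eq (by fun_prop) (by fun_prop))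
      (Pool.Agent.Helper578.JD.RE.or ?_ (Pool.Agent.Helper578.JD.RE.or ?_
        (Pool.Agent.Helper578.JD.RE.or ?_ ?_)))
    · refine ex (p := fun (x : ℕ × (ℕ × ℕ × List ℕ) × Info) (y : (ℕ × ℕ) × (ℕ × ℕ)) =>
        x.2.1.2.1 = Nat.pair 1 (Nat.pair y.1.1 y.1.2) ∧
        V (y.1.1, x.2.1.2.2, y.2.1) ∧ V (y.1.2, x.2.1.2.2, y.2.2) ∧ y.2.1 ≠ y.2.2) ?_
      refine Pool.Agent.Helper578.JD.RE.and (eq (by fun_prop) (by fun_prop))
        (Pool.Agent.Helper578.JD.RE.and (comp hV (by fun_prop))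
          (Pool.Agent.Helper578.JD.RE.and (comp hV (by fun_prop))
            (ne (by fun_prop) (by fun_prop))))
    · refine ex (p := fun (x : ℕ × (ℕ × ℕ × List ℕ) × Info) (y : ℕ × List ℕ × List ℕ) =>
        x.2.1.2.1 = Nat.pair 2 (Nat.pair y.1 (encode y.2.1)) ∧
        Lift V y.2.1 x.2.1.2.2 y.2.2 ∧ ¬ RG σ U (y.1, y.2.2)) ?_
      refine Pool.Agent.Helper578.JD.RE.and (eq (by fun_prop) (by fun_prop))
        (Pool.Agent.Helper578.JD.RE.and ?_ ?_)
      · exact lift_re (V := fun (_ : (ℕ × (ℕ × ℕ × List ℕ) × Info) × (ℕ × List ℕ × List ℕ)) z =>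
          V z) (comp hV Computable.snd) (by fun_prop) (by fun_prop) (by fun_prop)
      · exact comp hR (f := fun w : (ℕ × (ℕ × ℕ × List ℕ) × Info) × (ℕ × List ℕ × List ℕ) =>
          (w.2.1, w.2.2.2)) (by fun_prop)
    · refine ex (p := fun (x : ℕ × (ℕ × ℕ × List ℕ) × Info) (y : ℕ × ℕ) =>
        x.2.1.2.1 = Nat.pair 3 (Nat.pair y.1 y.2) ∧
        cur x.1 (encode (x.2.1.1 - 1, y.1, x.2.1.2.2)) ∈ x.2.2.2 ∧
        cur x.1 (encode (x.2.1.1 - 1, y.2, x.2.1.2.2)) ∈ x.2.2.1) ?_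
      exact Pool.Agent.Helper578.JD.RE.and (eq (by fun_prop) (by fun_prop))
        (Pool.Agent.Helper578.JD.RE.and (mem_list (by fun_prop) (by fun_prop))
          (mem_list (by fun_prop) (by fun_prop)))
    · refine ex (p := fun (x : ℕ × (ℕ × ℕ × List ℕ) × Info) (y : ℕ × ℕ) =>
        x.2.1.2.1 = Nat.pair 4 y.1 ∧ y.2 ∈ U ∧
        cur x.1 (encode (x.2.1.1 - 1, y.1, x.2.1.2.2 ++ [y.2])) ∈ x.2.2.1) ?_
      exact Pool.Agent.Helper578.JD.RE.and (eq (by fun_prop) (by fun_prop))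
        (Pool.Agent.Helper578.JD.RE.and (comp hUm (by fun_prop))
          (mem_list (by fun_prop) (by fun_prop)))
  obtain ⟨r, hr⟩ := jump_recursion (P := P) h1
  have hok : ∀ A : Set ℕ, Ok A ([], []) := fun A => ⟨by simp, by simp⟩
  refine ⟨fun x => cur r (encode x), by fun_prop, fun k φ => ?_⟩
  induction φ with
  | falsum =>
    intro xs n _
    rw [Function.iterate_succ_apply', hr]
    exact ⟨fun _ h => h, fun _ => ⟨_, hok _, Or.inl rfl⟩⟩
  | equal s t =>
    intro xs n _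
    rw [Function.iterate_succ_apply', hr]
    show _ ↔ ¬ (s.realize (Sum.elim default xs) = t.realize (Sum.elim default xs))
    constructor
    · rintro ⟨c, -, h | ⟨y, h, h2, h3, h4⟩ | ⟨y, h, -⟩ | ⟨y, h, -⟩ | ⟨y, h, -⟩⟩ <;>
        simp only [gn, Nat.pair_eq_pair] at h
      · omega
      · obtain ⟨-, h5, h6⟩ := h
        simp only at h2 h3
        rw [← h5, hVs] at h2
        rw [← h6, hVs] at h3
        intro h7
        exact h4 (by rw [← h2, ← h3, h7])
      all_goals omega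
    · intro h
      exact ⟨_, hok _, Or.inr (Or.inl ⟨((gnTerm s, gnTerm t), (_, _)), rfl, (hVs _ s xs _).2 rfl,
        (hVs _ t xs _).2 rfl, fun h2 => h (Subtype.ext h2)⟩)⟩
  | rel R ts =>
    intro xs n _
    rw [Function.iterate_succ_apply', hr]
    show _ ↔ ¬ Structure.RelMap R fun j => (ts j).realize (Sum.elim default xs)
    have h2 := lift_iff (V := V) (t := fun j => gnTerm (ts j))
      (a := fun j => (((ts j).realize (Sum.elim (default : Empty → U) xs) : U) : ℕ))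
      (l := List.ofFn fun j => (xs j : ℕ)) (fun j v => hVs _ (ts j) xs v)
    constructor
    · rintro ⟨c, -, h | ⟨y, h, -⟩ | ⟨⟨i, l, vs⟩, h, h3, h4⟩ | ⟨y, h, -⟩ | ⟨y, h, -⟩⟩ <;>
        simp only [gn, Nat.pair_eq_pair] at h
      · omega
      · omega
      · obtain ⟨-, h5, h6⟩ := h
        rw [encode_inj] at h6
        subst h5 h6
        simp only at h3 h4
        rw [h2] at h3
        subst h3
        exact fun h7 => h4 ((RG_iff R _).2 h7)
      all_goals omega
    · intro h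
      exact ⟨_, hok _, Or.inr (Or.inr (Or.inl ⟨(R.1, List.ofFn fun j => gnTerm (ts j),
        List.ofFn fun j => (((ts j).realize (Sum.elim (default : Empty → U) xs) : U) : ℕ)), rfl,
        (h2 _).2 rfl, fun h7 => h ((RG_iff R _).1 h7)⟩))⟩
  | imp φ ψ ih1 ih2 =>
    intro xs n hn
    have h5 : Nat.pair (gn φ) (gn ψ) < gn (φ.imp ψ) := lt_pair_of_pos (by omega)
    have h6 := Nat.left_le_pair (gn φ) (gn ψ)
    have h7 := Nat.right_le_pair (gn φ) (gn ψ)
    obtain ⟨m, rfl⟩ : ∃ m, n = m + 1 := ⟨n - 1, by omega⟩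
    have i1 := ih1 xs m (by omega)
    have i2 := ih2 xs m (by omega)
    rw [Function.iterate_succ_apply', hr, BoundedFormula.realize_imp]
    constructor
    · rintro ⟨c, hc, h | ⟨y, h, -⟩ | ⟨y, h, -⟩ | ⟨y, h, h2, h3⟩ | ⟨y, h, -⟩⟩ <;>
        simp only [gn, Nat.pair_eq_pair] at h
      · omega
      · omega
      · omega
      · obtain ⟨-, h8, h9⟩ := h
        simp only [Nat.add_sub_cancel] at h2 h3
        rw [← h8] at h2
        rw [← h9] at h3
        have h10 := hc.2 _ h2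
        have h11 := hc.1 _ h3
        rw [i1] at h10
        rw [i2] at h11
        exact fun h12 => h11 (h12 (not_not.1 h10))
      · omega
    · intro h
      rw [Classical.not_imp] at h
      refine ⟨([cur r (encode (m, gn ψ, List.ofFn fun j => (xs j : ℕ)))],
        [cur r (encode (m, gn φ, List.ofFn fun j => (xs j : ℕ)))]), ⟨?_, ?_⟩,
        Or.inr (Or.inr (Or.inr (Or.inl ⟨(gn φ, gn ψ), rfl, ?_, ?_⟩)))⟩
      · intro x hx
        rw [List.mem_singleton.1 hx]
        exact i2.2 h.2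
      · intro x hx
        rw [List.mem_singleton.1 hx]
        exact fun h8 => i1.1 h8 h.1
      · exact List.mem_singleton.2 rfl
      · exact List.mem_singleton.2 rfl
  | all φ ih =>
    intro xs n hn
    have h5 : gn φ < gn φ.all := lt_pair_of_pos (by omega)
    obtain ⟨m, rfl⟩ : ∃ m, n = m + 1 := ⟨n - 1, by omega⟩
    have i1 := fun a : U => ih (Fin.snoc xs a) m (by omega)
    simp only [ofFn_snoc] at i1
    rw [Function.iterate_succ_apply', hr, BoundedFormula.realize_all]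
    constructor
    · rintro ⟨c, hc, h | ⟨y, h, -⟩ | ⟨y, h, -⟩ | ⟨y, h, -⟩ | ⟨y, h, h2, h3⟩⟩ <;>
        simp only [gn, Nat.pair_eq_pair] at h
      · omega
      · omega
      · omega
      · omega
      · obtain ⟨-, h8⟩ := h
        simp only [Nat.add_sub_cancel] at h3
        rw [← h8] at h3
        exact fun h9 => (i1 ⟨y.2, h2⟩).1 (hc.1 _ h3) (h9 _)
    · intro h
      rw [not_forall] at h
      obtain ⟨a, ha⟩ := h
      refine ⟨([cur r (encode (m, gn φ, (List.ofFn fun j => (xs j : ℕ)) ++ [(a : ℕ)]))], []),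
        ⟨?_, by simp⟩, Or.inr (Or.inr (Or.inr (Or.inr ⟨(gn φ, a), rfl, a.2, ?_⟩)))⟩
      · intro x hx
        rw [List.mem_singleton.1 hx]
        exact (i1 a).2 ha
      · exact List.mem_singleton.2 rfl

/-- The theory of a computable structure belongs to the family `fam`. -/
theorem codes_mem_fam {σ : Signature} (hσ : σ.IsComputable) {T : σ.lang.Theory}
    (hT : T.IsComplete) (hM : HasComputableModel T) : ∃ e, codes T = fam e := by
  obtain ⟨U, hne, S, hU, hUT⟩ := hM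
  obtain ⟨G, hG, h⟩ := exists_false hU
  refine exists_fam (p := fun x => ∃ φ : σ.lang.BoundedFormula Empty 0, gn φ = x)
    (comp (formula_re hσ) (f := fun x : ℕ => (0, x)) (by fun_prop))
    (f := fun x => Nat.pair (x + 1) (G (x, x, []))) (by fun_prop) fun x => ?_
  have key : ∀ φ : σ.lang.Sentence,
      Nat.pair (gn φ + 1) (G (gn φ, gn φ, [])) ∉ zeroOmega ↔ T ⊨ᵇ φ := by
    intro φ
    rw [mem_zeroOmega, ← hT.realize_sentence_iff φ U]
    have h1 := h 0 φ default (gn φ) le_rfl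
    rw [List.ofFn_zero] at h1
    rw [h1, not_not]
    rfl
  constructor
  · rintro ⟨φ, h1, rfl⟩
    exact ⟨⟨φ, rfl⟩, (key φ).2 h1⟩
  · rintro ⟨⟨φ, rfl⟩, h1⟩
    exact ⟨φ, (key φ).1 h1, rfl⟩

theorem main : ∃ D : Set ℕ, TuringReducible (chi D) (chi zeroOmega) ∧
    ∀ σ : Signature, σ.IsComputable → ∀ T : σ.lang.Theory, T.IsComplete →
      HasComputableModel T → ¬ TuringEquivalent (chi (codes T)) (chi D) := by
  obtain ⟨D, h1, h2, h3⟩ := exists_diag fam_mem fam_not_mem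
  refine ⟨D, red_iff_chi.2 h1, fun σ hσ T hT hM h => ?_⟩
  obtain ⟨e, he⟩ := codes_mem_fam hσ hT hM
  rw [he] at h
  obtain ⟨h4, h5⟩ := h3 e (red_iff_chi.1 h.1)
  exact h2 (re_of_reIn_of_re (Red_iff.1 (red_iff_chi.1 h.2)).1 h4 h5)

end Pool.Agent.H437Z.CT
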